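import Mathlib

set_option autoImplicit false

open Polynomial

namespace Pool.Agent.Lib.MP_ceb3e8_nt

variable {p : ℕ} [hp : Fact p.Prime] {K : Type*} [Field K] [Algebra (ZMod p) K]

theorem zmod_smul_eq (a : ZMod p) (x : K) : a • x = algebraMap (ZMod p) K a * x :=
  Algebra.smul_def a x

theorem charP_K (p : ℕ) [Fact p.Prime] (K : Type*) [Field K] [Algebra (ZMod p) K] : CharP K p :=
  charP_of_injective_algebraMap (algebraMap (ZMod p) K).injective p

/-- The map `x ↦ u * x + x ^ p`. -/
noncomputable def carl (p : ℕ) [Fact p.Prime] {K : Type*} [Field K] [Algebra (ZMod p) K] (u : K) :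
    Module.End (ZMod p) K where
  toFun x := u * x + x ^ p
  map_add' x y := by
    have := charP_K p K
    have : ExpChar K p := ExpChar.prime (Fact.out)
    rw [add_pow_char]
    ring
  map_smul' a x := by
    simp only [RingHom.id_apply, zmod_smul_eq]
    have h : (algebraMap (ZMod p) K a) ^ p = algebraMap (ZMod p) K a := by
      rw [← map_pow, ZMod.pow_card]
    rw [mul_pow, h]
    ring

theorem carl_apply (u x : K) : carl p u x = u * x + x ^ p := rfl

/-- The polynomials giving the iterates of `carl`. -/
noncomputable def E (p : ℕ) {K : Type*} [Field K] (s : K) : ℕ → K[X]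
  | 0 => X
  | n + 1 => C s * E p s n + (E p s n) ^ p

theorem E_eval (s x : K) (n : ℕ) : ((carl p s) ^ n) x = (E p s n).eval x := by
  induction n with
  | zero => simp [E]
  | succ n ih =>
    rw [pow_succ', Module.End.mul_apply, ih, carl_apply]
    simp [E]

theorem E_monic_deg {K : Type*} [Field K] (s : K) (n : ℕ) :
    (E p s n).Monic ∧ (E p s n).natDegree = p ^ n := by
  have hp2 := hp.out.two_le
  induction n with
  | zero => simp [E, monic_X]
  | succ n ih =>
    obtain ⟨hm, hd⟩ := ih
    have h1 : ((E p s n) ^ p).Monic := hm.pow p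
    have h2 : ((E p s n) ^ p).natDegree = p ^ (n + 1) := by
      rw [hm.natDegree_pow, hd, pow_succ, mul_comm]
    have hlt : (C s * E p s n).natDegree < ((E p s n) ^ p).natDegree := by
      rw [h2]
      calc (C s * E p s n).natDegree ≤ (E p s n).natDegree := natDegree_C_mul_le _ _
        _ = p ^ n := hd
        _ < p ^ (n + 1) := Nat.pow_lt_pow_right (by omega) (by omega)
    have hlt' : (C s * E p s n).degree < ((E p s n) ^ p).degree := degree_lt_degree hlt
    refine ⟨?_, ?_⟩
    · exact h1.add_of_right hlt'
    · show (C s * E p s n + (E p s n) ^ p).natDegree = _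
      rw [natDegree_add_eq_right_of_natDegree_lt hlt, h2]

/-- For nonzero `g`, the additive map `aeval (carl p s) g` has finite kernel. -/
theorem finite_ker (s : K) (g : (ZMod p)[X]) (hg : g ≠ 0) :
    {x : K | (aeval (carl p s) g) x = 0}.Finite := by
  set G : K[X] := ∑ n ∈ g.support, C (algebraMap (ZMod p) K (g.coeff n)) * E p s n with hG
  have hev : ∀ x, (aeval (carl p s) g) x = G.eval x := by
    intro x
    rw [aeval_eq_sum_range, hG, eval_finsetSum, LinearMap.sum_apply]
    rw [Finset.sum_subset (s₁ := g.support) (s₂ := Finset.range (g.natDegree + 1))]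
    · refine Finset.sum_congr rfl ?_
      intro n _
      rw [LinearMap.smul_apply, E_eval, zmod_smul_eq, eval_mul, eval_C]
    · exact supp_subset_range_natDegree_succ
    · intro n _ hn
      rw [notMem_support_iff.mp hn]
      simp
  have hG0 : G ≠ 0 := by
    intro h0
    have hc : G.coeff (p ^ g.natDegree) = algebraMap (ZMod p) K g.leadingCoeff := by
      rw [hG, finsetSum_coeff]
      rw [Finset.sum_eq_single g.natDegree]
      · rw [coeff_C_mul]
        have h1 := (E_monic_deg (p := p) s g.natDegree).1
        have h2 := (E_monic_deg (p := p) s g.natDegree).2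
        have h3 : (E p s g.natDegree).coeff (p ^ g.natDegree) = 1 := by
          rw [← h2]; exact h1
        rw [h3, mul_one]
        rfl
      · intro n hn hne
        rw [coeff_C_mul]
        have hle : n ≤ g.natDegree := le_natDegree_of_mem_supp n hn
        have hlt : n < g.natDegree := lt_of_le_of_ne hle hne
        have h2 := (E_monic_deg (p := p) s n).2
        have h4 : (E p s n).coeff (p ^ g.natDegree) = 0 := by
          apply coeff_eq_zero_of_natDegree_lt
          rw [h2]
          exact Nat.pow_lt_pow_right hp.out.one_lt hlt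
        rw [h4, mul_zero]
      · intro hn
        exfalso
        apply hn
        exact natDegree_mem_support_of_nonzero hg
    rw [h0, coeff_zero] at hc
    have : g.leadingCoeff = 0 := by
      have hinj := (algebraMap (ZMod p) K).injective
      apply hinj
      rw [← hc, map_zero]
    exact hg (leadingCoeff_eq_zero.mp this)
  classical
  refine (G.roots.toFinset.finite_toSet).subset ?_
  intro x hx
  have hx' : (aeval (carl p s) g) x = 0 := hx
  rw [hev] at hx'
  simp only [Finset.mem_coe, Multiset.mem_toFinset]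
  exact (mem_roots hG0).mpr hx'

/-- Coefficients of the iterates of `carl`. -/
noncomputable def e (p : ℕ) {K : Type*} [Field K] (s : K) : ℕ → ℕ → K
  | 0, 0 => 1
  | 0, _ + 1 => 0
  | n + 1, 0 => s * e p s n 0
  | n + 1, j + 1 => s * e p s n (j + 1) + (e p s n j) ^ p

theorem e_zero {K : Type*} [Field K] (s : K) (n : ℕ) : e p s n 0 = s ^ n := by
  induction n with
  | zero => simp [e]
  | succ n ih => rw [e, ih, pow_succ']

theorem e_gt {K : Type*} [Field K] (s : K) (n : ℕ) : ∀ j, n < j → e p s n j = 0 := by
  induction n with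
  | zero =>
    intro j hj
    obtain ⟨k, rfl⟩ : ∃ k, j = k + 1 := ⟨j - 1, by omega⟩
    rw [e]
  | succ n ih =>
    intro j hj
    obtain ⟨k, rfl⟩ : ∃ k, j = k + 1 := ⟨j - 1, by omega⟩
    rw [e, ih (k + 1) (by omega), ih k (by omega)]
    rw [zero_pow hp.out.ne_zero]
    simp

theorem e_diag {K : Type*} [Field K] (s : K) (n : ℕ) : e p s n n = 1 := by
  induction n with
  | zero => simp [e]
  | succ n ih =>
    rw [e, ih, e_gt (p := p) s n (n + 1) (by omega)]
    simp

theorem sum_pow_char_K {ι : Type*} (t : Finset ι) (f : ι → K) :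
    (∑ i ∈ t, f i) ^ p = ∑ i ∈ t, f i ^ p := by
  have := charP_K p K
  have : ExpChar K p := ExpChar.prime (Fact.out)
  exact sum_pow_char p t f

theorem carl_iter (s x : K) (n : ℕ) :
    ((carl p s) ^ n) x = ∑ j ∈ Finset.range (n + 1), e p s n j * x ^ (p ^ j) := by
  induction n with
  | zero => simp [e]
  | succ n ih =>
    rw [pow_succ', Module.End.mul_apply, ih, carl_apply]
    rw [sum_pow_char_K, Finset.sum_range_succ' (fun j => e p s (n + 1) j * x ^ (p ^ j)) (n + 1)]
    have h1 : ∀ j ∈ Finset.range (n + 1), e p s (n + 1) (j + 1) * x ^ (p ^ (j + 1))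
        = s * (e p s n (j + 1) * x ^ (p ^ (j + 1))) + (e p s n j * x ^ (p ^ j)) ^ p := by
      intro j _
      rw [e, mul_pow, ← pow_mul, ← pow_succ]
      ring
    rw [Finset.sum_congr rfl h1, Finset.sum_add_distrib, ← Finset.mul_sum]
    have h2 : ∑ j ∈ Finset.range (n + 1), e p s n j * x ^ (p ^ j)
        = ∑ j ∈ Finset.range (n + 1), e p s n (j + 1) * x ^ (p ^ (j + 1)) + e p s n 0 * x ^ (p ^ 0) := by
      rw [← Finset.sum_range_succ' (fun j => e p s n j * x ^ (p ^ j)) (n + 1)]
      rw [Finset.sum_range_succ _ (n + 1), e_gt (p := p) s n (n + 1) (by omega)]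
      simp
    rw [h2, e]
    ring

/-- Frobenius intertwines. -/
theorem frob_carl (s x : K) : (carl p s x) ^ p = carl p (s ^ p) (x ^ p) := by
  have := charP_K p K
  have : ExpChar K p := ExpChar.prime (Fact.out)
  rw [carl_apply, carl_apply, add_pow_char, mul_pow]

theorem frob_carl_pow (s x : K) (n : ℕ) :
    (((carl p s) ^ n) x) ^ p = ((carl p (s ^ p)) ^ n) (x ^ p) := by
  induction n with
  | zero => simp
  | succ n ih =>
    rw [pow_succ', Module.End.mul_apply, frob_carl, ih, pow_succ', Module.End.mul_apply]

theorem frob_carl_aeval (s x : K) (f : (ZMod p)[X]) :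
    ((aeval (carl p s) f) x) ^ p = (aeval (carl p (s ^ p)) f) (x ^ p) := by
  rw [aeval_eq_sum_range, aeval_eq_sum_range, LinearMap.sum_apply, LinearMap.sum_apply,
    sum_pow_char_K]
  refine Finset.sum_congr rfl ?_
  intro n _
  rw [LinearMap.smul_apply, LinearMap.smul_apply, zmod_smul_eq, zmod_smul_eq, mul_pow,
    frob_carl_pow, ← map_pow, ZMod.pow_card]

end Pool.Agent.Lib.MP_ceb3e8_nt
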