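import Mathlib
import Pool.Agent.Lib.MP_ceb3e8_nt.Basic

set_option autoImplicit false

open Polynomial

namespace Pool.Agent.Lib.MP_ceb3e8_nt

variable {p : ℕ} [hp : Fact p.Prime] {K : Type*} [Field K] [Algebra (ZMod p) K]

/-- The diagonal action of `t` on `K ^ 2`: the `p`-th iterate of `x ↦ s x + x ^ p` on the first
coordinate and `y ↦ s ^ p y + y ^ p` on the second one. -/
noncomputable def Psi (p : ℕ) [Fact p.Prime] {K : Type*} [Field K] [Algebra (ZMod p) K] (s : K) :
    Module.End (ZMod p) (Fin 2 → K) where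
  toFun v := ![((carl p s) ^ p) (v 0), carl p (s ^ p) (v 1)]
  map_add' v w := by
    ext i
    fin_cases i <;> simp
  map_smul' a v := by
    ext i
    fin_cases i <;> simp

theorem Psi_zero (s : K) (v : Fin 2 → K) : Psi p s v 0 = ((carl p s) ^ p) (v 0) := rfl

theorem Psi_one (s : K) (v : Fin 2 → K) : Psi p s v 1 = carl p (s ^ p) (v 1) := rfl

theorem Psi_pow_zero (s : K) (v : Fin 2 → K) (n : ℕ) :
    ((Psi p s) ^ n) v 0 = ((carl p s) ^ (p * n)) (v 0) := by
  induction n with
  | zero => simp
  | succ n ih =>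
    rw [pow_succ', Module.End.mul_apply, Psi_zero, ih, Nat.mul_succ, add_comm (p * n) p, pow_add,
      Module.End.mul_apply]

theorem Psi_pow_one (s : K) (v : Fin 2 → K) (n : ℕ) :
    ((Psi p s) ^ n) v 1 = ((carl p (s ^ p)) ^ n) (v 1) := by
  induction n with
  | zero => simp
  | succ n ih =>
    rw [pow_succ', Module.End.mul_apply, Psi_one, ih, pow_succ', Module.End.mul_apply]

theorem Psi_aeval_zero (s : K) (v : Fin 2 → K) (f : (ZMod p)[X]) :
    (aeval (Psi p s) f) v 0 = (aeval (carl p s) (expand (ZMod p) p f)) (v 0) := by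
  induction f using Polynomial.induction_on' with
  | add f g hf hg =>
    simp only [map_add, LinearMap.add_apply, Pi.add_apply, hf, hg]
  | monomial n a =>
    rw [expand_monomial, aeval_monomial, aeval_monomial]
    simp only [Module.algebraMap_end_eq_smul_id, smul_mul_assoc, LinearMap.smul_apply,
      Pi.smul_apply, Module.End.mul_apply, LinearMap.id_apply]
    rw [Psi_pow_zero, mul_comm p n]

theorem Psi_aeval_one (s : K) (v : Fin 2 → K) (f : (ZMod p)[X]) :
    (aeval (Psi p s) f) v 1 = (aeval (carl p (s ^ p)) f) (v 1) := by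
  induction f using Polynomial.induction_on' with
  | add f g hf hg =>
    simp only [map_add, LinearMap.add_apply, Pi.add_apply, hf, hg]
  | monomial n a =>
    rw [aeval_monomial, aeval_monomial]
    simp only [Module.algebraMap_end_eq_smul_id, smul_mul_assoc, LinearMap.smul_apply,
      Pi.smul_apply, Module.End.mul_apply, LinearMap.id_apply]
    rw [Psi_pow_one]

/-- Coefficients of the two Drinfeld modules. -/
noncomputable def coef (p : ℕ) {K : Type*} [Field K] (s : K) : Fin 2 → ℕ → K :=
  ![fun j => e p s p j, fun j => if j = 0 then s ^ p else 1]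

theorem Psi_formula (s : K) (v : Fin 2 → K) (i : Fin 2) :
    Psi p s v i = ∑ j ∈ Finset.range ((![p, 1] : Fin 2 → ℕ) i + 1), coef p s i j * v i ^ (p ^ j) := by
  fin_cases i
  · show ((carl p s) ^ p) (v 0) = _
    rw [carl_iter]
    rfl
  · show carl p (s ^ p) (v 1) = _
    rw [carl_apply]
    simp [coef, Finset.sum_range_succ]

/-- The orbit of `s ^ 2` as polynomials in `s`. -/
noncomputable def orb (p : ℕ) : ℕ → (ZMod p)[X]
  | 0 => X ^ 2
  | n + 1 => X * orb p n + (orb p n) ^ p

theorem orb_spec (s : K) (n : ℕ) : aeval s (orb p n) = ((carl p s) ^ n) (s ^ 2) := by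
  induction n with
  | zero => simp [orb]
  | succ n ih =>
    rw [pow_succ', Module.End.mul_apply, carl_apply, ← ih]
    simp [orb]

theorem orb_natDegree (n : ℕ) : (orb p n).natDegree = 2 * p ^ n := by
  have hp2 := hp.out.two_le
  induction n with
  | zero => simp [orb]
  | succ n ih =>
    have hpos : 0 < p ^ n := Nat.pow_pos (by omega)
    have h2 : ((orb p n) ^ p).natDegree = 2 * p ^ (n + 1) := by
      rw [natDegree_pow, ih, pow_succ]
      ring
    have hlt : (X * orb p n).natDegree < ((orb p n) ^ p).natDegree := by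
      rw [h2]
      calc (X * orb p n).natDegree ≤ X.natDegree + (orb p n).natDegree := natDegree_mul_le
        _ ≤ 1 + 2 * p ^ n := by rw [ih, natDegree_X]
        _ < 2 * p ^ (n + 1) := by
          rw [pow_succ]
          have : p ^ n * 2 ≤ p ^ n * p := Nat.mul_le_mul_left _ hp2
          omega
    show (X * orb p n + (orb p n) ^ p).natDegree = _
    rw [natDegree_add_eq_right_of_natDegree_lt hlt, h2]

theorem orbit_injective (s : K) (hs : Transcendental (ZMod p) s) :
    Function.Injective (fun n : ℕ => ((carl p s) ^ n) (s ^ 2)) := by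
  intro m n hmn
  have hmn' : ((carl p s) ^ m) (s ^ 2) = ((carl p s) ^ n) (s ^ 2) := hmn
  rw [← orb_spec, ← orb_spec] at hmn'
  have hinj := transcendental_iff_injective.mp hs
  have h1 := hinj hmn'
  have h2 : (orb p m).natDegree = (orb p n).natDegree := by rw [h1]
  rw [orb_natDegree, orb_natDegree] at h2
  have h3 : p ^ m = p ^ n := by omega
  exact Nat.pow_right_injective hp.out.two_le h3

/-- The generators of `Γ`. -/
noncomputable def gen (p : ℕ) [Fact p.Prime] {K : Type*} [Field K] [Algebra (ZMod p) K] (s : K) :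
    Fin (p + 1) → Fin 2 → K :=
  Fin.snoc (fun k : Fin p => ![((carl p s) ^ (k : ℕ)) (s ^ 2), 0]) ![0, (s ^ 2) ^ p]

/-- The finitely generated submodule `Γ`. -/
def Gam (p : ℕ) [Fact p.Prime] {K : Type*} [Field K] [Algebra (ZMod p) K] (s : K) :
    Set (Fin 2 → K) :=
  Set.range (fun a : Fin (p + 1) → (ZMod p)[X] => ∑ k, (aeval (Psi p s) (a k)) (gen p s k))

theorem mem_Gam (s : K) (n : ℕ) :
    ![((carl p s) ^ n) (s ^ 2), (((carl p s) ^ n) (s ^ 2)) ^ p] ∈ Gam p s := by
  have hp0 : 0 < p := hp.out.pos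
  set r : Fin p := ⟨n % p, Nat.mod_lt _ hp0⟩ with hr
  refine ⟨Fin.snoc (fun k : Fin p => if k = r then X ^ (n / p) else 0) (X ^ n), ?_⟩
  simp only []
  rw [Fin.sum_univ_castSucc]
  simp only [Fin.snoc_castSucc, Fin.snoc_last, gen]
  rw [Finset.sum_eq_single r]
  · rw [if_pos rfl]
    ext i
    fin_cases i
    · simp only [map_pow, aeval_X, Fin.zero_eta, Pi.add_apply]
      rw [Psi_pow_zero, Psi_pow_zero]
      simp only [Matrix.cons_val_zero, map_zero, add_zero]
      rw [← Module.End.mul_apply, ← pow_add]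
      congr 2
      rw [hr]
      exact Nat.div_add_mod n p
    · simp only [map_pow, aeval_X, Fin.mk_one, Pi.add_apply]
      rw [Psi_pow_one, Psi_pow_one]
      simp only [Matrix.cons_val_one, Matrix.cons_val_fin_one, map_zero, zero_add]
      rw [frob_carl_pow]
  · intro k _ hk
    rw [if_neg hk]
    simp
  · intro h
    exact absurd (Finset.mem_univ _) h

theorem infinite_inter (s : K) (hs : Transcendental (ZMod p) s) :
    {x : Fin 2 → K | x ∈ Gam p s ∧ x 1 = x 0 ^ p}.Infinite := by
  refine Set.infinite_of_injective_forall_mem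
    (f := fun n : ℕ => ![((carl p s) ^ n) (s ^ 2), (((carl p s) ^ n) (s ^ 2)) ^ p]) ?_ ?_
  · intro m n hmn
    have h := congrFun hmn 0
    simp only [Matrix.cons_val_zero] at h
    exact orbit_injective s hs h
  · intro n
    exact ⟨mem_Gam s n, by simp⟩

theorem finite_coset (s : K) (f : (ZMod p)[X]) (hf : 0 < f.natDegree)
    (δ : Fin 2 → K) (H : AddSubgroup (Fin 2 → K))
    (hH : ∀ x ∈ H, (aeval (Psi p s) f) x ∈ H)
    (hV : ∀ x ∈ H, (δ + x) 1 = (δ + x) 0 ^ p) : (H : Set (Fin 2 → K)).Finite := by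
  have hcp := charP_K p K
  have hec : ExpChar K p := ExpChar.prime (Fact.out)
  have hV' : ∀ x ∈ H, x 1 = x 0 ^ p := by
    intro x hx
    have h0 := hV 0 H.zero_mem
    have h1 := hV x hx
    simp only [Pi.add_apply, Pi.zero_apply, add_zero] at h0 h1
    rw [add_pow_char, h0] at h1
    exact add_left_cancel h1
  set g : (ZMod p)[X] := expand (ZMod p) p f - f with hg
  have hg0 : g ≠ 0 := by
    intro h
    have h1 : expand (ZMod p) p f = f := sub_eq_zero.mp h
    have h2 : (expand (ZMod p) p f).natDegree = f.natDegree := by rw [h1]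
    rw [natDegree_expand] at h2
    have h3 : f.natDegree * 2 ≤ f.natDegree * p := Nat.mul_le_mul_left _ hp.out.two_le
    omega
  have hker : ∀ x ∈ H, (aeval (carl p s) g) (x 0) = 0 := by
    intro x hx
    have h1 := hV' _ (hH x hx)
    rw [Psi_aeval_zero, Psi_aeval_one, hV' x hx, ← frob_carl_aeval] at h1
    have h2 : (aeval (carl p s) f) (x 0) = (aeval (carl p s) (expand (ZMod p) p f)) (x 0) := by
      have h3 := frobenius_inj K p
      exact h3 h1
    rw [hg, map_sub, LinearMap.sub_apply, h2, sub_self]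
  have hfin := finite_ker s g hg0
  refine (hfin.image (fun a : K => (![a, a ^ p] : Fin 2 → K))).subset ?_
  intro x hx
  refine ⟨x 0, hker x hx, ?_⟩
  ext i
  fin_cases i
  · rfl
  · simp only [Fin.mk_one, Matrix.cons_val_one, Matrix.cons_val_fin_one]
    exact (hV' x hx).symm

end Pool.Agent.Lib.MP_ceb3e8_nt
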